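import Pool.Agent.Lib.MP_688fd0_co.SQ6.Top

/-!
Row PART: the elements of `ker eps` whose order is not divisible by `P` form a normal subgroup.
-/

set_option autoImplicit false

namespace Pool.Agent.Lib.MP_688fd0_co.SQ6.H74

open Subgroup Pool.Agent.Lib.MP_688fd0_co.SQ3

/-- A central subgroup of prime order `P`, `P²` does not divide the order of the group: the
elements of order prime to `P` form a subgroup. -/
theorem compl {Γ : Type} [Group Γ] [Finite Γ] {P : ℕ} (hP : P.Prime) (h2 : ¬ P ^ 2 ∣ Nat.card Γ)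
    (s : Γ) (hs : orderOf s = P) (hc : ∀ g : Γ, g * s * g⁻¹ = s) :
    ∃ K : Subgroup Γ, ∀ x, x ∈ K ↔ ¬ P ∣ orderOf x := by
  have : Fact P.Prime := ⟨hP⟩
  have hcard : Nat.card (zpowers s) = P ^ (Nat.card Γ).factorization P := by
    rw [Nat.card_zpowers, hs]
    have h3 : P ∣ Nat.card Γ := hs ▸ orderOf_dvd_natCard s
    have h4 : 0 < (Nat.card Γ).factorization P :=
      hP.factorization_pos_of_dvd Nat.card_pos.ne' h3
    have h5 : (Nat.card Γ).factorization P < 2 := by
      by_contra h6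
      exact h2 ((hP.pow_dvd_iff_le_factorization Nat.card_pos.ne').2 (not_lt.1 h6))
    rw [show (Nat.card Γ).factorization P = 1 by omega, pow_one]
  obtain ⟨S, hS⟩ : ∃ S : Sylow P Γ, (S : Subgroup Γ) = zpowers s :=
    ⟨Sylow.ofCard (zpowers s) hcard, rfl⟩
  have hcom : ∀ g : Γ, ∀ x ∈ zpowers s, x * g = g * x := by
    intro g x hx
    obtain ⟨i, rfl⟩ := mem_zpowers_iff.1 hx
    have h3 : g * s = s * g := by
      have := hc g
      rw [mul_inv_eq_iff_eq_mul] at this
      exact this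
    have h4 : Commute g s := h3
    exact (h4.zpow_right i).symm
  have hN : normalizer (S : Set Γ) ≤ centralizer (S : Set Γ) := by
    intro g _
    rw [mem_centralizer_iff]
    intro x hx
    have hx' : x ∈ zpowers s := by
      rw [← hS]
      exact hx
    exact hcom g x hx'
  refine ⟨(MonoidHom.transferSylow S hN).ker, fun x => ⟨fun hx h3 => ?_, fun hx => ?_⟩⟩
  · refine MonoidHom.not_dvd_card_ker_transferSylow S hN (h3.trans ?_)
    have h4 := orderOf_dvd_natCard (⟨x, hx⟩ : (MonoidHom.transferSylow S hN).ker)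
    rwa [← Subgroup.orderOf_coe] at h4
  · rw [MonoidHom.mem_ker]
    have h4 : orderOf ((MonoidHom.transferSylow S hN) x) ∣ orderOf x := orderOf_map_dvd _ x
    have h5 : orderOf ((MonoidHom.transferSylow S hN) x) ∣ P := by
      have h6 := orderOf_dvd_natCard ((MonoidHom.transferSylow S hN) x)
      have h7 : Nat.card (S : Subgroup Γ) = P := by
        rw [hS, Nat.card_zpowers, hs]
      rwa [h7] at h6
    rcases (Nat.dvd_prime hP).1 h5 with h6 | h6
    · exact orderOf_eq_one_iff.1 h6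
    · exact (hx (h6 ▸ h4)).elim

theorem part : PartS := by
  intro G _ _ N C eps k P hG hP2
  have hg := hG.toGNE
  have hP := hg.prime
  have : Fact P.Prime := ⟨hP⟩
  have hcomm := SQ2.H41.comm_of_cyclic N hg.Nc
  -- an element of order P
  obtain ⟨s, hsN, hs⟩ : ∃ s ∈ N, orderOf s = P := by
    obtain ⟨s, hs⟩ := exists_prime_orderOf_dvd_card' (G := N) P hg.dvd
    exact ⟨s.1, s.2, by rw [Subgroup.orderOf_coe]; exact hs⟩
  have hsP : s ^ P = 1 := hs ▸ pow_orderOf_eq_one s
  have hact : ∀ g : G, g * s * g⁻¹ = s ^ ((eps g : ℤˣ) : ℤ) := by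
    intro g
    have h1 := hg.act s hsN g
    obtain ⟨y, hy⟩ : ∃ y, y = g * s * g⁻¹ * (s ^ ((eps g : ℤˣ) : ℤ))⁻¹ := ⟨_, rfl⟩
    rw [← hy] at h1
    have h2 : y ^ P = 1 := by
      have h3 : Commute (g * s * g⁻¹) (s ^ ((eps g : ℤˣ) : ℤ))⁻¹ :=
        hcomm _ (hg.Nn.conj_mem s hsN g) _ (N.inv_mem (N.zpow_mem hsN _))
      rw [hy, h3.mul_pow, conj_pow, hsP, inv_pow, ← zpow_natCast, ← zpow_mul, mul_comm, zpow_mul,
        zpow_natCast, hsP]
      simp
    have h3 : y = 1 := by
      have h4 : orderOf y ∣ P := orderOf_dvd_of_pow_eq_one h2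
      have h5 : orderOf y ∣ Nat.card C := by
        have h6 := orderOf_dvd_natCard (⟨y, h1⟩ : C)
        rwa [← Subgroup.orderOf_coe] at h6
      rcases (Nat.dvd_prime hP).1 h4 with h6 | h6
      · exact orderOf_eq_one_iff.1 h6
      · exact (hg.ndvd (h6 ▸ h5)).elim
    rw [hy, mul_inv_eq_one] at h3
    exact h3
  have hsΓ : s ∈ eps.ker := hg.eN s hsN
  constructor
  · have hcd : Nat.card eps.ker ∣ Nat.card G := Subgroup.card_subgroup_dvd_card _
    obtain ⟨K, hK⟩ := compl (Γ := eps.ker) hP (fun h => hg.sq (h.trans hcd)) ⟨s, hsΓ⟩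
      (by rw [← Subgroup.orderOf_coe]; exact hs) (fun g => by
        have h1 := hact g.1
        rw [MonoidHom.mem_ker.1 g.2] at h1
        refine Subtype.ext ?_
        simpa using h1)
    have hM : ∀ x, x ∈ K.map eps.ker.subtype ↔ eps x = 1 ∧ ¬ P ∣ orderOf x := by
      intro x
      constructor
      · rintro ⟨y, hy, rfl⟩
        refine ⟨y.2, ?_⟩
        have := (hK y).1 hy
        rwa [← Subgroup.orderOf_coe] at this
      · rintro ⟨h1, h2⟩
        refine ⟨⟨x, h1⟩, (hK _).2 ?_, rfl⟩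
        rwa [← Subgroup.orderOf_coe]
    refine ⟨K.map eps.ker.subtype, ⟨fun x hx g => ?_⟩, hM⟩
    obtain ⟨h1, h2⟩ := (hM x).1 hx
    refine (hM _).2 ⟨?_, ?_⟩
    · rw [map_mul, map_mul, h1, mul_one, ← map_mul, mul_inv_cancel, map_one]
    · have h3 : orderOf (g * x * g⁻¹) = orderOf x := by
        have h4 : g * x * g⁻¹ = MulAut.conj g x := rfl
        rw [h4]
        exact orderOf_injective (MulAut.conj g).toMonoidHom (MulAut.conj g).injective x
      rwa [h3]
  · intro x hx hd
    obtain ⟨y, hy⟩ : ∃ y, y = x ^ (orderOf x / P) := ⟨_, rfl⟩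
    have hyo : orderOf y = P := by
      rw [hy, orderOf_pow_of_dvd (Nat.div_pos (Nat.le_of_dvd (orderOf_pos x) hd) hP.pos).ne'
        (Nat.div_dvd_of_dvd hd), Nat.div_div_self hd (orderOf_pos x).ne']
    -- y is in the group generated by s
    have hSn : (zpowers s).Normal := by
      refine ⟨fun z hz g => ?_⟩
      obtain ⟨i, rfl⟩ := mem_zpowers_iff.1 hz
      rw [← conj_zpow, hact g]
      exact zpow_mem (zpow_mem (mem_zpowers s) _) _
    have hys : y ∈ zpowers s := by
      rw [← QuotientGroup.eq_one_iff, ← orderOf_eq_one_iff]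
      have h1 : orderOf (QuotientGroup.mk y : G ⧸ zpowers s) ∣ P := by
        rw [← hyo]
        exact orderOf_map_dvd (QuotientGroup.mk' (zpowers s)) y
      have h2 : orderOf (QuotientGroup.mk y : G ⧸ zpowers s) ∣ Nat.card (G ⧸ zpowers s) :=
        orderOf_dvd_natCard _
      rcases (Nat.dvd_prime hP).1 h1 with h3 | h3
      · exact h3
      · exfalso
        rw [h3] at h2
        apply hg.sq
        rw [Subgroup.card_eq_card_quotient_mul_card_subgroup (zpowers s), Nat.card_zpowers, hs,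
          pow_two]
        exact Nat.mul_dvd_mul_right h2 P
    obtain ⟨i, hi⟩ := mem_zpowers_iff.1 hys
    have h1 : x * y * x⁻¹ = y⁻¹ := by
      rw [← hi, ← conj_zpow, hact x, hx]
      simp
    have h2 : x * y * x⁻¹ = y := by
      rw [hy, ← pow_succ', pow_succ, mul_inv_cancel_right]
    rw [h2] at h1
    have h3 : y ^ 2 = 1 := by
      rw [pow_two]
      nth_rewrite 1 [h1]
      exact inv_mul_cancel y
    have h4 : orderOf y ∣ 2 := orderOf_dvd_of_pow_eq_one h3
    rw [hyo] at h4
    exact hP2 ((Nat.prime_dvd_prime_iff_eq hP Nat.prime_two).1 h4)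

end Pool.Agent.Lib.MP_688fd0_co.SQ6.H74
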